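import Mathlib

namespace Pool.Agent.Results.MP_f96d9d_nt.PrimeSeven

open Finset

/-- The generalized central trinomial coefficient `T_n(b,c)`. -/
def T (b c : ℤ) (n : ℕ) : ℤ :=
  ∑ j ∈ range (n / 2 + 1), (n.choose (2 * j) : ℤ) * ((2 * j).choose j : ℤ) * c ^ j * b ^ (n - 2 * j)

/-- `∑_{k<p} T_k(b,c)^3 / m^k`. -/
def S (b c m : ℤ) (p : ℕ) : ℚ := ∑ k ∈ range p, (T b c k : ℚ) ^ 3 / (m : ℚ) ^ k

/-- `x ≡ y` modulo `p^2 ℤ_(p)`. -/
def Cong (p : ℕ) (x y : ℚ) : Prop :=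
  ∃ u v : ℤ, ¬ (p : ℤ) ∣ v ∧ x - y = (p : ℚ) ^ 2 * u / v

/-- The statement of Q1. -/
def Q1 : Prop := ∀ p : ℕ, p.Prime → 3 < p →
  (∀ x y : ℤ, p % 4 = 1 → (p : ℤ) = x ^ 2 + y ^ 2 → Odd x → Even y →
    Cong p (jacobiSym 2 p * S 18 49 512 p) (4 * x ^ 2 - 2 * p) ∧
    Cong p (S 18 49 4096 p) (4 * x ^ 2 - 2 * p)) ∧
  (p % 4 = 3 → Cong p (jacobiSym 2 p * S 18 49 512 p) 0 ∧ Cong p (S 18 49 4096 p) 0)

/-- The statement of Q2. -/
def Q2 : Prop := ∀ p : ℕ, p.Prime → 3 < p →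
  (∀ x y : ℤ, (p % 8 = 1 ∨ p % 8 = 3) → (p : ℤ) = x ^ 2 + 2 * y ^ 2 →
    Cong p (jacobiSym (-1) p * S 10 49 (-512) p) (4 * x ^ 2 - 2 * p) ∧
    Cong p (jacobiSym 6 p * S 10 49 1728 p) (4 * x ^ 2 - 2 * p)) ∧
  ((p % 8 = 5 ∨ p % 8 = 7) →
    Cong p (jacobiSym (-1) p * S 10 49 (-512) p) 0 ∧ Cong p (jacobiSym 6 p * S 10 49 1728 p) 0)

lemma T18 : T 18 49 0 = 1 ∧ T 18 49 1 = 18 ∧ T 18 49 2 = 422 ∧ T 18 49 3 = 11124 ∧
    T 18 49 4 = 309894 ∧ T 18 49 5 = 8901468 ∧ T 18 49 6 = 260693084 := by decide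

lemma T10 : T 10 49 0 = 1 ∧ T 10 49 1 = 10 ∧ T 10 49 2 = 198 ∧ T 10 49 3 = 3940 ∧
    T 10 49 4 = 83206 ∧ T 10 49 5 = 1800300 ∧ T 10 49 6 = 39661980 := by decide

lemma S18 : S 18 49 4096 7 = (21232405354957642090750400 : ℤ) / ((4096 ^ 6 : ℤ) : ℚ) := by
  obtain ⟨h0, h1, h2, h3, h4, h5, h6⟩ := T18
  simp only [S, Finset.sum_range_succ, Finset.sum_range_zero, h0, h1, h2, h3, h4, h5, h6]
  norm_num

lemma S10 : S 10 49 1728 7 = (74620831099090240843200 : ℤ) / ((1728 ^ 6 : ℤ) : ℚ) := by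
  obtain ⟨h0, h1, h2, h3, h4, h5, h6⟩ := T10
  simp only [S, Finset.sum_range_succ, Finset.sum_range_zero, h0, h1, h2, h3, h4, h5, h6]
  norm_num

/-- a congruence modulo `49` to zero forces the numerator to be divisible by `49`. -/
lemma not_cong {N D : ℤ} (hD : D ≠ 0) (hN : ¬ (49 : ℤ) ∣ N) : ¬ Cong 7 ((N : ℚ) / (D : ℚ)) 0 := by
  rintro ⟨u, v, hv, h⟩
  have hv0 : v ≠ 0 := by
    rintro rfl
    exact hv (dvd_zero _)
  have hDq : (D : ℚ) ≠ 0 := by exact_mod_cast hD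
  have hvq : (v : ℚ) ≠ 0 := by exact_mod_cast hv0
  rw [sub_zero, div_eq_div_iff hDq hvq] at h
  have h2 : N * v = 49 * u * D := by
    have : (N : ℚ) * v = 49 * u * D := by
      rw [h]; push_cast; ring
    exact_mod_cast this
  have hcop : IsCoprime (49 : ℤ) v := by
    have h7 : IsCoprime (7 : ℤ) v := by
      rw [Prime.coprime_iff_not_dvd (by norm_num : Prime (7 : ℤ))]
      exact_mod_cast hv
    have : (49 : ℤ) = 7 ^ 2 := by norm_num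
    rw [this]
    exact h7.pow_left
  apply hN
  have h3 : (49 : ℤ) ∣ N * v := ⟨u * D, by rw [h2]; ring⟩
  exact hcop.dvd_of_dvd_mul_right h3

/-- **Q1 and Q2 are false as stated: the prime `p = 7` is a counterexample to both.** -/
theorem result : ¬ Q1 ∧ ¬ Q2 := by
  constructor
  · intro h
    have h1 := ((h 7 (by norm_num) (by norm_num)).2 (by norm_num)).2
    rw [S18] at h1
    exact not_cong (by norm_num) (by norm_num) h1
  · intro h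
    have h1 := ((h 7 (by norm_num) (by norm_num)).2 (Or.inr (by norm_num))).2
    have hj : jacobiSym 6 7 = -1 := by norm_num
    rw [hj, S10] at h1
    have h2 : ((-1 : ℤ) : ℚ) * ((74620831099090240843200 : ℤ) / ((1728 ^ 6 : ℤ) : ℚ)) =
        ((-74620831099090240843200 : ℤ) : ℚ) / ((1728 ^ 6 : ℤ) : ℚ) := by
      push_cast; ring
    rw [h2] at h1
    exact not_cong (by norm_num) (by norm_num) h1

end Pool.Agent.Results.MP_f96d9d_nt.PrimeSeven
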